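import Mathlib

/-! Number fields, finite Galois modules and the known facts on Iwasawa cohomology used for
`MP_519cc8_nt`. -/

set_option autoImplicit false

noncomputable section

namespace Pool.Mu54

open Module IsDedekindDomain

/-- An algebraic closure of `ℚ`. -/
abbrev Qb : Type := AlgebraicClosure ℚ

instance : Algebra.IsAlgebraic ℚ Qb := AlgebraicClosure.isAlgebraic ℚ
instance : IsAlgClosure ℚ Qb := ⟨inferInstance, inferInstance⟩

/-- A subfield of `Qb` is a number field. -/
def IsNF (k : IntermediateField ℚ Qb) : Prop := FiniteDimensional ℚ k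

/-- Number fields, inside the fixed algebraic closure of `ℚ`. -/
structure NF where
  /-- The field. -/
  fld : IntermediateField ℚ Qb
  fin : IsNF fld

instance (K : NF) : FiniteDimensional ℚ K.fld := K.fin

/-- The field `K`, as a type. -/
def NF.carrier (K : NF) : Type := K.fld

instance (K : NF) : Field K.carrier := K.fld.toField

theorem NF.charZero (K : NF) : CharZero K.carrier := (inferInstance : CharZero K.fld)

instance (K : NF) : CharZero K.carrier := K.charZero

theorem NF.numberField (K : NF) : NumberField K.carrier :=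
  @NumberField.mk _ _ K.charZero (K.fin : FiniteDimensional ℚ K.fld)

instance (K : NF) : NumberField K.carrier := K.numberField

/-- The degree `[K : ℚ]`. -/
def NF.deg (K : NF) : ℕ := finrank ℚ K.carrier

theorem NF.deg_eq (K : NF) : K.deg = finrank ℚ K.fld := rfl

/-- `K ⊆ L`. -/
instance : LE NF := ⟨fun K L => K.fld ≤ L.fld⟩

theorem NF.sup_fin (K L : NF) : IsNF (K.fld ⊔ L.fld) :=
  (inferInstance : FiniteDimensional ℚ (K.fld ⊔ L.fld : IntermediateField ℚ Qb))

/-- The compositum of two number fields. -/
def NF.sup (K L : NF) : NF := ⟨K.fld ⊔ L.fld, K.sup_fin L⟩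

theorem NF.le_sup (K L : NF) : K ≤ K.sup L := (le_sup_left : K.fld ≤ K.fld ⊔ L.fld)

/-- `K` is a Galois extension of `ℚ`. -/
def NF.Normal (K : NF) : Prop := IsGalois ℚ K.carrier

/-- The absolute Galois group of `ℚ`. -/
def GQ : Type := Qb ≃ₐ[ℚ] Qb

instance : Group GQ := (AlgEquiv.aut : Group (Qb ≃ₐ[ℚ] Qb))

/-- The absolute Galois group `G_K`, as a subgroup of `G_ℚ`. -/
def NF.gal (K : NF) : Subgroup GQ := K.fld.fixingSubgroup

/-- The type of the elements of `G_K`. -/
def NF.Gal (K : NF) : Type := K.gal

instance (K : NF) : Group K.Gal := K.gal.toGroup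

/-- `G_K ⊆ G_ℚ`. -/
def NF.toGQ (K : NF) : K.Gal →* GQ := K.gal.subtype

theorem NF.gal_le {K L : NF} (h : K ≤ L) : L.gal ≤ K.gal :=
  IntermediateField.fixingSubgroup_antitone h

/-- `G_L ⊆ G_K` for `K ⊆ L`. -/
def NF.incl {K L : NF} (h : K ≤ L) : L.Gal →* K.Gal := Subgroup.inclusion (NF.gal_le h)

section modules

variable (F : Type) [Field F]

/-- An action of `G_K` is trivial on `G_K ∩ G_E` for some number field `E`. -/
def IsCont (K : NF) (M : Type) [AddCommGroup M] [Module F M] (ρ : K.Gal →* (M →ₗ[F] M)) : Prop :=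
  ∃ E : NF, ∀ σ : K.Gal, K.toGQ σ ∈ E.gal → ρ σ = 1

/-- A finite Galois module over `F`: a finite-dimensional `F`-vector space with an `F`-linear
action of `G_K` which is trivial on `G_K ∩ G_E` for some number field `E`. -/
structure GMod (K : NF) where
  /-- The vector space. -/
  M : Type
  [grp : AddCommGroup M]
  [mod : Module F M]
  [fin : Module.Finite F M]
  /-- The action of `G_K`. -/
  ρ : K.Gal →* (M →ₗ[F] M)
  cont : IsCont F K M ρ

end modules

attribute [instance] GMod.grp GMod.mod GMod.fin

variable {F : Type} [Field F]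

/-- The action of an element of `G_K` on a vector. -/
def GMod.act {K : NF} (V : GMod F K) (σ : K.Gal) (v : V.M) : V.M := V.ρ σ v

theorem GMod.res_cont {K L : NF} (V : GMod F K) (h : K ≤ L) :
    IsCont F L V.M (V.ρ.comp (NF.incl h)) := by
  obtain ⟨E, hE⟩ := V.cont
  exact ⟨E, fun σ hσ => hE _ hσ⟩

/-- The restriction of a Galois module from `G_K` to `G_L`, `K ⊆ L`. -/
def GMod.res {K L : NF} (V : GMod F K) (h : K ≤ L) : GMod F L where
  M := V.M
  ρ := V.ρ.comp (NF.incl h)
  cont := V.res_cont h

/-- Homomorphisms of Galois modules. -/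
structure GMod.Hom {K : NF} (V W : GMod F K) where
  /-- The linear map. -/
  f : V.M →ₗ[F] W.M
  eq : ∀ (σ : K.Gal) (v : V.M), f (V.act σ v) = W.act σ (f v)

/-- An element of `G_ℚ` as an automorphism of the field `Qb`. -/
def GQ.toRing : GQ →* RingAut Qb :=
  MonoidHom.mk' (fun σ => AlgEquiv.toRingEquiv (R := ℚ) σ) (fun _ _ => rfl)

/-- The mod `p` cyclotomic character of `G_ℚ`. -/
def chi (p : ℕ) [Fact p.Prime] : GQ →* (ZMod p)ˣ :=
  (modularCyclotomicCharacter Qb (HasEnoughRootsOfUnity.natCard_rootsOfUnity Qb p)).comp GQ.toRing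

theorem chi_eq_one {p : ℕ} [Fact p.Prime] (σ : Qb ≃ₐ[ℚ] Qb)
    (h : ∀ z : Qb, z ^ p = 1 → σ z = z) : chi p σ = 1 := by
  have h1 := modularCyclotomicCharacter.unique Qb
    (HasEnoughRootsOfUnity.natCard_rootsOfUnity Qb p) (σ : Qb ≃+* Qb) (c := 1) (by
      intro t ht
      have h2 : (t : Qb) ^ p = 1 := by
        rw [mem_rootsOfUnity] at ht
        have := congrArg Units.val ht
        simpa using this
      have : Fact (1 < p) := ⟨(Fact.out : p.Prime).one_lt⟩
      rw [ZMod.val_one, pow_one]
      exact h _ h2)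
  apply Units.ext
  exact h1.symm

theorem rootField_fin (m : ℕ) [NeZero m] :
    IsNF (IntermediateField.adjoin ℚ {z : Qb | z ^ m = 1}) := by
  have hf : ({z : Qb | z ^ m = 1}).Finite := by
    classical
    have h1 : {z : Qb | z ^ m = 1} = ↑((Polynomial.nthRoots m (1 : Qb)).toFinset) := by
      ext z
      simp [Polynomial.mem_nthRoots (Nat.pos_of_ne_zero (NeZero.ne m))]
    rw [h1]
    exact Finset.finite_toSet _
  have : Finite ({z : Qb | z ^ m = 1}) := hf
  exact IntermediateField.finiteDimensional_adjoin fun x _ =>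
    (Algebra.IsAlgebraic.isAlgebraic x).isIntegral

/-- The number field generated by the `m`-th roots of unity. -/
def rootField (m : ℕ) [NeZero m] : NF where
  fld := IntermediateField.adjoin ℚ {z : Qb | z ^ m = 1}
  fin := rootField_fin m

/-- `B` is the `n`-th layer of the cyclotomic `ℤ_p`-extension of `ℚ` (`p` odd): the subfield of
degree `p ^ n` of the field of `p ^ (n + 1)`-th roots of unity. -/
def IsLayer (p : ℕ) [Fact p.Prime] (n : ℕ) (B : NF) : Prop :=
  B ≤ rootField (p ^ (n + 1)) ∧ B.deg = p ^ n

section basic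

variable (F)

theorem cont_one (K : NF) : IsCont F K F 1 := ⟨K, fun _ _ => rfl⟩

/-- The trivial Galois module `F`. -/
def triv (K : NF) : GMod F K where
  M := F
  ρ := 1
  cont := cont_one F K

/-- The mod `p` cyclotomic character of `G_K`, with values in `F`. -/
def chiF (p : ℕ) [Fact p.Prime] [CharP F p] (K : NF) : K.Gal →* F :=
  (((ZMod.castHom (dvd_refl p) F : ZMod p →+* F) : ZMod p →* F).comp
    ((Units.coeHom (ZMod p)).comp (chi p))).comp K.toGQ

end basic

theorem chiF_eq_one {p : ℕ} [Fact p.Prime] [CharP F p] {K : NF} (σ : K.Gal)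
    (h : K.toGQ σ ∈ (rootField p).gal) : chiF F p K σ = 1 := by
  have h1 : chi p (K.toGQ σ) = 1 := by
    apply chi_eq_one
    intro z hz
    exact h ⟨z, IntermediateField.subset_adjoin _ _ hz⟩
  simp [chiF, h1]

/-- The action of `G_K` on `F` through the mod `p` cyclotomic character. -/
def tateRep (p : ℕ) [Fact p.Prime] (F : Type) [Field F] [CharP F p] (K : NF) :
    K.Gal →* (F →ₗ[F] F) := (Algebra.lmul F F).toMonoidHom.comp (chiF F p K)

theorem tateRep_eq_one {p : ℕ} [Fact p.Prime] [CharP F p] {K : NF} (σ : K.Gal)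
    (h : K.toGQ σ ∈ (rootField p).gal) : tateRep p F K σ = 1 := by
  have h1 : tateRep p F K σ = Algebra.lmul F F 1 := by
    simp [tateRep, chiF_eq_one σ h]
  rw [h1]
  exact map_one _

theorem tateRep_cont (p : ℕ) [Fact p.Prime] (F : Type) [Field F] [CharP F p] (K : NF) :
    IsCont F K F (tateRep p F K) := ⟨rootField p, fun σ hσ => tateRep_eq_one σ hσ⟩

/-- The Galois module `F(1)`: the group `G_K` acts on `F` through the mod `p` cyclotomic
character. -/
def tate (p : ℕ) [Fact p.Prime] (F : Type) [Field F] [CharP F p] (K : NF) : GMod F K where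
  M := F
  ρ := tateRep p F K
  cont := tateRep_cont p F K

section primes

variable (p : ℕ) (k : Type) [Field k] [NumberField k]

/-- The primes above `p` of a number field. -/
def above : Set (HeightOneSpectrum (NumberField.RingOfIntegers k)) :=
  {v | (p : NumberField.RingOfIntegers k) ∈ v.asIdeal}

/-- The ring `O_k[1/p]` of the elements of `k` integral outside the primes above `p`. -/
abbrev OS : Subalgebra (NumberField.RingOfIntegers k) k := (above p k).integer k

/-- The class group of the ring `O_k[1/p]`. -/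
def ClS : Type := ClassGroup (OS p k)

instance : CommGroup (ClS p k) := (inferInstance : CommGroup (ClassGroup (OS p k)))

/-- The classes of order dividing `p` in `Cl(O_k[1/p])`. -/
def ClTors : Set (ClS p k) := {x | x ^ p = 1}

/-- The `p`-rank of the class group `C = Cl(O_k[1/p])`, i.e. the dimension of `C/pC`, or of
`C[p]`, over `ℤ/p`. -/
def clRankOf : ℕ := Nat.log p (ClTors p k).ncard

end primes

/-- The `p`-rank of the class group of `O_K[1/p]`. -/
def clRank (p : ℕ) (K : NF) : ℕ := clRankOf p K.carrier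

/-- The number of primes of `K` above `p`. -/
def numAbove (p : ℕ) (K : NF) : ℕ := (above p K.carrier).ncard

end Pool.Mu54
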