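import Pool.Agent.H54.Mu.Defs

/-! Field theory: layers, Sylow subfields. -/

set_option autoImplicit false

namespace Pool.Mu54

open Module IntermediateField

section general

variable {k Ω : Type} [Field k] [Field Ω] [Algebra k Ω]

theorem lift_deg (M : IntermediateField k Ω) [FiniteDimensional k M] [IsGalois k M]
    (H : Subgroup (M ≃ₐ[k] M)) (d : ℕ)
    (hd : Nat.card H * d = Nat.card (M ≃ₐ[k] M)) :
    finrank k (lift (fixedField H)) = d := by
  have h1 : finrank k (fixedField H) * finrank (fixedField H) M = finrank k M :=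
    finrank_mul_finrank k (fixedField H) M
  rw [finrank_fixedField_eq_card, ← IsGalois.card_aut_eq_finrank k M, ← hd, mul_comm] at h1
  have h2 : 0 < Nat.card H := Nat.card_pos
  have h3 := Nat.eq_of_mul_eq_mul_left h2 h1
  rw [← h3]
  exact (liftAlgEquiv (fixedField H)).toLinearEquiv.finrank_eq.symm

theorem exists_subfield (M : IntermediateField k Ω) [FiniteDimensional k M] [IsGalois k M]
    [hc : IsCyclic (M ≃ₐ[k] M)] (a b : ℕ) (ha : 0 < a) (hcard : Nat.card (M ≃ₐ[k] M) = a * b) :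
    ∃ B : IntermediateField k Ω, B ≤ M ∧ finrank k B = a := by
  obtain ⟨g, hg⟩ := hc.exists_ofOrder_eq_natCard
  have hg1 : orderOf (g ^ a) = b := by
    rw [orderOf_pow, hg, hcard, Nat.gcd_mul_right_left]
    exact Nat.mul_div_cancel_left _ ha
  refine ⟨lift (fixedField (Subgroup.zpowers (g ^ a))), lift_le _, ?_⟩
  apply lift_deg M
  rw [Nat.card_zpowers, hg1, hcard, mul_comm]

theorem exists_sylow_subfield (p : ℕ) [Fact p.Prime] (M : IntermediateField k Ω)
    [FiniteDimensional k M] [IsGalois k M] : ∃ K : IntermediateField k Ω, K ≤ M ∧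
      ¬ p ∣ finrank k K ∧ ∃ a, finrank k M = p ^ a * finrank k K := by
  obtain ⟨P⟩ : Nonempty (Sylow p (M ≃ₐ[k] M)) := inferInstance
  have hidx : Nat.card (P : Subgroup (M ≃ₐ[k] M)) *
      (P : Subgroup (M ≃ₐ[k] M)).index = Nat.card (M ≃ₐ[k] M) :=
    Subgroup.card_mul_index _
  have hK := lift_deg M (P : Subgroup (M ≃ₐ[k] M)) _ hidx
  have hnd : ¬ p ∣ (P : Subgroup (M ≃ₐ[k] M)).index := P.not_dvd_index
  obtain ⟨a, ha⟩ := P.2.exists_card_eq
  refine ⟨lift (fixedField (P : Subgroup (M ≃ₐ[k] M))), lift_le _, ?_, a, ?_⟩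
  · rw [hK]; exact hnd
  · rw [hK, ← ha, hidx]
    exact (IsGalois.card_aut_eq_finrank k M).symm

theorem exists_layer_subfield [halg : Algebra.IsAlgebraic k Ω] (p : ℕ) [Fact p.Prime]
    (hp : p ≠ 2) (n : ℕ) (ζ : Ω)
    (hζ : IsPrimitiveRoot ζ (p ^ (n + 1)))
    (hirr : Irreducible (Polynomial.cyclotomic (p ^ (n + 1)) k)) :
    ∃ B : IntermediateField k Ω, B ≤ k⟮ζ⟯ ∧ finrank k B = p ^ n := by
  have hpp : p.Prime := Fact.out
  have hint : Algebra.IsIntegral k Ω := halg.isIntegral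
  have hcyc : IsCyclotomicExtension {p ^ (n + 1)} k k⟮ζ⟯ :=
    hζ.intermediateField_adjoin_isCyclotomicExtension k
  have hfin : FiniteDimensional k k⟮ζ⟯ :=
    IsCyclotomicExtension.finiteDimensional {p ^ (n + 1)} k _
  have hgal : IsGalois k k⟮ζ⟯ := IsCyclotomicExtension.isGalois {p ^ (n + 1)} k _
  let e : (k⟮ζ⟯ ≃ₐ[k] k⟮ζ⟯) ≃* (ZMod (p ^ (n + 1)))ˣ :=
    IsCyclotomicExtension.autEquivPow k⟮ζ⟯ hirr
  have hcy : IsCyclic (ZMod (p ^ (n + 1)))ˣ := ZMod.isCyclic_units_of_prime_pow p hpp hp (n + 1)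
  have hcy' : IsCyclic (k⟮ζ⟯ ≃ₐ[k] k⟮ζ⟯) :=
    isCyclic_of_surjective e.symm e.symm.surjective
  have hcard : Nat.card (k⟮ζ⟯ ≃ₐ[k] k⟮ζ⟯) = p ^ n * (p - 1) := by
    rw [Nat.card_congr e.toEquiv, Nat.card_eq_fintype_card, ZMod.card_units_eq_totient,
      Nat.totient_prime_pow_succ hpp]
  exact exists_subfield _ _ _ (pow_pos hpp.pos n) hcard

end general

theorem NF.deg_pos (K : NF) : 0 < K.deg := by
  rw [K.deg_eq]
  exact finrank_pos

theorem NF.right_le_sup (K L : NF) : L ≤ K.sup L := (le_sup_right : L.fld ≤ K.fld ⊔ L.fld)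

theorem NF.tr {K L M : NF} (h1 : K ≤ L) (h2 : L ≤ M) : K ≤ M :=
  (le_trans (show K.fld ≤ L.fld from h1) h2 : K.fld ≤ M.fld)

theorem exists_layer (p : ℕ) [Fact p.Prime] (hp : p ≠ 2) (n : ℕ) : ∃ B : NF, IsLayer p n B := by
  have hpp : p.Prime := Fact.out
  obtain ⟨ζ, hζ⟩ := HasEnoughRootsOfUnity.exists_primitiveRoot Qb (p ^ (n + 1))
  obtain ⟨B, h1, h2⟩ := exists_layer_subfield (k := ℚ) p hp n ζ hζ
    (Polynomial.cyclotomic.irreducible_rat (NeZero.pos _))
  refine ⟨⟨B, FiniteDimensional.of_finrank_pos (by rw [h2]; exact pow_pos hpp.pos n)⟩, ?_, h2⟩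
  refine le_trans h1 ?_
  exact adjoin.mono ℚ _ _ (by
    intro z hz
    rw [Set.mem_singleton_iff] at hz
    subst hz
    exact hζ.pow_eq_one)

theorem exists_sylow (p : ℕ) [Fact p.Prime] (E : NF) : ∃ K M : NF, E ≤ M ∧ K ≤ M ∧
    M.Normal ∧ ¬ p ∣ K.deg ∧ ∃ a, M.deg = p ^ a * K.deg := by
  let M : NF := ⟨normalClosure ℚ E.fld Qb,
    (inferInstance : FiniteDimensional ℚ (normalClosure ℚ E.fld Qb))⟩
  have hnorm : Normal ℚ M.fld := normalClosure.normal ℚ E.fld Qb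
  have hgal : IsGalois ℚ M.fld := ⟨⟩
  obtain ⟨K, h1, h2, h3⟩ := exists_sylow_subfield p M.fld
  have hfin : FiniteDimensional ℚ K := by
    apply FiniteDimensional.of_finrank_pos
    by_contra h4
    push Not at h4
    have h5 : finrank ℚ K = 0 := by omega
    exact h2 (by rw [h5]; exact dvd_zero p)
  exact ⟨⟨K, hfin⟩, M, le_normalClosure E.fld, h1, hgal, h2, h3⟩

theorem sup_deg (p : ℕ) [Fact p.Prime] (K B : NF) (n : ℕ) (hK : ¬ p ∣ K.deg)
    (hB : IsLayer p n B) : (K.sup B).deg = p ^ n * K.deg := by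
  have hpp : p.Prime := Fact.out
  have h1 : (finrank ℚ K.fld).Coprime (finrank ℚ B.fld) := by
    have h2 : finrank ℚ B.fld = p ^ n := hB.2
    rw [h2]
    exact (Nat.Coprime.pow_left n ((Nat.Prime.coprime_iff_not_dvd hpp).2 hK)).symm
  have h3 := (LinearDisjoint.of_finrank_coprime h1).finrank_sup
  have h4 : finrank ℚ B.fld = p ^ n := hB.2
  rw [h4, mul_comm] at h3
  exact h3

theorem deg_mono {K L : NF} (h : K ≤ L) : K.deg ≤ L.deg :=
  IntermediateField.finrank_le_of_le_right h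

end Pool.Mu54
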