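import Pool.Agent.H54.Mu.Fields

/-! Elementary facts on finite Galois modules with trivial action. -/

set_option autoImplicit false

noncomputable section

namespace Pool.Mu54

variable {F : Type} [Field F] {K : NF}

/-- A sum of `r` copies of the trivial module. -/
def trivPow (F : Type) [Field F] (K : NF) (r : ℕ) : GMod F K where
  M := Fin r → F
  ρ := 1
  cont := ⟨K, fun _ _ => rfl⟩

/-- A homomorphism from a sum of trivial modules. -/
def trivHom {W : GMod F K} (r : ℕ) (hW : ∀ σ, W.ρ σ = 1) (f : (Fin r → F) →ₗ[F] W.M) :
    GMod.Hom (trivPow F K r) W where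
  f := f
  eq := by
    intro σ v
    unfold GMod.act
    rw [hW σ]
    rfl

/-- Trivial modules: the last coordinate and the kernel. -/
def consHom (r : ℕ) : GMod.Hom (trivPow F K r) (trivPow F K (r + 1)) where
  f := LinearMap.pi (Fin.cons (0 : (Fin r → F) →ₗ[F] F) (fun i => LinearMap.proj i))
  eq := by
    intro σ v
    rfl

def headHom (r : ℕ) : GMod.Hom (trivPow F K (r + 1)) (triv F K) where
  f := LinearMap.proj 0
  eq := by
    intro σ v
    rfl

theorem headHom_surj (r : ℕ) : Function.Surjective (headHom (F := F) (K := K) r).f := by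
  intro x
  exact ⟨fun _ => x, rfl⟩

theorem consHom_exact (r : ℕ) :
    Function.Exact (consHom (F := F) (K := K) r).f (headHom (F := F) (K := K) r).f := by
  intro v
  constructor
  · intro h
    refine ⟨fun i => v i.succ, ?_⟩
    funext i
    refine Fin.cases ?_ ?_ i
    · exact (h : v 0 = 0).symm
    · intro j
      rfl
  · rintro ⟨u, rfl⟩
    rfl

theorem exists_surj (W : GMod F K) : ∃ r : ℕ, ∃ f : (Fin r → F) →ₗ[F] W.M,
    Function.Surjective f := by
  refine ⟨Module.finrank F W.M, (Module.finBasis F W.M).equivFun.symm.toLinearMap, ?_⟩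
  exact (Module.finBasis F W.M).equivFun.symm.surjective

end Pool.Mu54
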