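import Pool.Agent.H54.Mu.Mods

/-! The known facts on the cohomology groups of `MP_519cc8_nt`. -/

set_option autoImplicit false

noncomputable section

namespace Pool.Mu54

open Module

/-- **The proved facts on Iwasawa cohomology**, for an odd prime `p` and a ring `𝓡` with residue
field `F` (`𝓡` is the ring of integers of a finite extension of `ℚ_p`, `π` is a uniformiser, `Γ_K`
is the Galois group of the cyclotomic `ℤ_p`-extension `K_∞` of `K`). -/
structure Theory (p : ℕ) [Fact p.Prime] (F : Type) [Field F] [CharP F p] where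
  /-- The data `(K, L, T, S, Σ)` of the problem. -/
  Data : Type 1
  /-- The field `L` of a datum. -/
  fieldL : Data → NF
  /-- The reduction `T / π`, as a module over `G_L`. -/
  red : (D : Data) → GMod F (fieldL D)
  /-- `H^2_{Σ,Iw}(O_{L,S}, T)` is a torsion `Λ`-module. -/
  tors : Data → Prop
  /-- The `μ`-invariant of (the torsion part of) `H^2_{Σ,Iw}(O_{L,S}, T)`. -/
  mu : Data → ℕ
  /-- The datum `(K, K, 𝓡(1), S, ∅)`, `S` consisting of the archimedean and the `p`-adic places. -/
  tateData : NF → Data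
  /-- The `F[[Γ_K]]`-rank of `H^2_Iw(O_{K,S}, V)`, `V` a finite Galois module over `F`. It does not
  depend on the finite set `S`, which contains the places above `p` and `∞` and the places where
  `V` ramifies. -/
  h : (K : NF) → GMod F K → ℕ
  /-- Independence of `Σ`, `H^2_Iw(T)/π = H^2_Iw(T/π)`, and Nakayama's lemma. -/
  q1 : ∀ D, (tors D ∧ mu D = 0) ↔ h (fieldL D) (red D) = 0
  q1_tate : ∀ K, (tors (tateData K) ∧ mu (tateData K) = 0) ↔ h K (tate p F K) = 0
  /-- `cd_p = 2`: the functor `H^2` is right exact. -/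
  h_surj : ∀ (K : NF) (V W : GMod F K) (f : GMod.Hom V W), Function.Surjective f.f → h K W ≤ h K V
  h_exact : ∀ (K : NF) (U V W : GMod F K) (f : GMod.Hom U V) (g : GMod.Hom V W),
    Function.Exact f.f g.f → Function.Surjective g.f → h K V ≤ h K U + h K W
  /-- Corestriction `H^2_Iw(O_{L,S}, V) → H^2_Iw(O_{K,S}, V)` is surjective (`K ⊆ L`). -/
  h_cores : ∀ (K L : NF) (hKL : K ≤ L) (V : GMod F K), h K V ≤ h L (V.res hKL)
  /-- The layers of `K_∞ / K` have the same Iwasawa cohomology; the rank is multiplied by the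
  degree over `K`. -/
  h_layer : ∀ (n : ℕ) (K B : NF) (V : GMod F K), IsLayer p n B →
    (K.sup B).deg * h K V = K.deg * h (K.sup B) (V.res (K.le_sup B))
  /-- Shapiro's lemma for a Galois extension `L/K` of degree `p^a`: `F[Gal(L/K)]` is a successive
  extension of `p^a` trivial modules. -/
  h_pext : ∀ (a : ℕ) (K L : NF) (hKL : K ≤ L) (V : GMod F K), L.Normal →
    L.deg = p ^ a * K.deg → h L (V.res hKL) ≤ p ^ a * h K V
  /-- Kummer theory: `H^2(O_K[1/p], F(1))` has dimension `clRank + numAbove - 1`, and it is the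
  module of coinvariants of the module of Iwasawa cohomology. -/
  h_tate : ∀ K, h K (tate p F K) < clRank p K + numAbove p K
  /-- If the Iwasawa cohomology of `F(1)` is finite then the groups `H^2(O_{K_n}[1/p], F(1))`,
  which are its quotients, are bounded. -/
  tate_bdd : ∀ K, h K (tate p F K) = 0 →
    ∃ c : ℕ, ∀ (n : ℕ) (B : NF), IsLayer p n B → clRank p (K.sup B) + numAbove p (K.sup B) ≤ c

namespace Theory

variable {p : ℕ} [Fact p.Prime] {F : Type} [Field F] [CharP F p] (T : Theory p F)

theorem trivPow_zero (K : NF) (r : ℕ) (h0 : T.h K (triv F K) = 0) :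
    T.h K (trivPow F K r) = 0 := by
  induction r with
  | zero =>
    have h1 := T.h_surj K (triv F K) (trivPow F K 0)
      ⟨(0 : F →ₗ[F] (Fin 0 → F)), by intro σ v; rfl⟩ (by
        intro x
        exact ⟨0, Subsingleton.elim (α := Fin 0 → F) _ _⟩)
    omega
  | succ r ih =>
    have h1 := T.h_exact K _ _ _ (consHom (F := F) (K := K) r) (headHom r) (consHom_exact r)
      (headHom_surj r)
    omega

/-- If every representation is trivial over `M`, its rank is zero as soon as the trivial module
has rank zero. -/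
theorem trivial_zero (K : NF) (W : GMod F K) (hW : ∀ σ, W.ρ σ = 1)
    (h0 : T.h K (triv F K) = 0) : T.h K W = 0 := by
  obtain ⟨r, f, hf⟩ := exists_surj W
  have h1 := T.h_surj K _ W (trivHom r hW f) hf
  have h2 := T.trivPow_zero K r h0
  omega

/-- Descent through a Galois extension of `p`-power degree. -/
theorem zero_of_pext {K M : NF} (a : ℕ) (hKM : K ≤ M) (hR : rootField p ≤ M)
    (hG : M.Normal) (hd : M.deg = p ^ a * K.deg) (h0 : T.h K (tate p F K) = 0)
    {E : NF} (hE : E ≤ M) (V : GMod F E) (hV : ∀ σ, (V.res hE).ρ σ = 1) : T.h E V = 0 := by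
  have h6 := T.h_pext a K M hKM (tate p F K) hG hd
  rw [h0, mul_zero] at h6
  have h7 : T.h M (tate p F M) = 0 := Nat.le_zero.mp h6
  have h8 : T.h M (triv F M) = 0 := by
    have h9 := T.h_surj M (tate p F M) (triv F M) ⟨LinearMap.id, by
      intro σ v
      have h10 : tateRep p F M σ = 1 := tateRep_eq_one σ
        (NF.gal_le hR σ.2)
      change tateRep p F M σ v = v
      rw [h10]
      rfl⟩ (fun x => ⟨x, rfl⟩)
    omega
  have h11 := T.h_cores E M hE V
  have h12 := T.trivial_zero M (V.res hE) hV h8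
  omega

/-- Descent to the subfields of degree prime to `p`. -/
theorem zero_of_tate (hT : ∀ K : NF, ¬ p ∣ K.deg → T.h K (tate p F K) = 0) (K : NF)
    (V : GMod F K) : T.h K V = 0 := by
  obtain ⟨E, hE⟩ := V.cont
  obtain ⟨K₀, M, h1, h2, h3, h4, a, h5⟩ := exists_sylow p ((K.sup E).sup (rootField p))
  have hKM : K ≤ M := NF.tr (K.le_sup E) (NF.tr ((K.sup E).le_sup _) h1)
  have hEM : E ≤ M := NF.tr (K.right_le_sup E) (NF.tr ((K.sup E).le_sup _) h1)
  have hRM : rootField p ≤ M := NF.tr ((K.sup E).right_le_sup (rootField p)) h1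
  exact T.zero_of_pext a h2 hRM h3 h5 (hT K₀ h4) hKM V (fun σ =>
    hE _ (NF.gal_le hEM σ.2))

theorem le_of_sup_le {K B L : NF} (h1 : K ≤ L) (h2 : B ≤ L) : K.sup B ≤ L :=
  (sup_le h1 h2 : K.fld ⊔ B.fld ≤ L.fld)

/-- One field `L` above `K` with few classes and primes kills the rank of `F(1)`. -/
theorem tate_zero (n : ℕ) (K B L : NF) (hB : IsLayer p n B) (h1 : K ≤ L) (h2 : B ≤ L)
    (h3 : (clRank p L + numAbove p L) * K.deg ≤ (K.sup B).deg) : T.h K (tate p F K) = 0 := by
  have h4 := T.h_layer n K B (tate p F K) hB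
  have h5 := T.h_cores (K.sup B) L (le_of_sup_le h1 h2) (tate p F (K.sup B))
  have h6 : T.h (K.sup B) (tate p F (K.sup B)) < clRank p L + numAbove p L :=
    lt_of_le_of_lt h5 (T.h_tate L)
  by_contra h7
  have h8 : 1 ≤ T.h K (tate p F K) := Nat.one_le_iff_ne_zero.mpr h7
  have h9 : (K.sup B).deg ≤ K.deg * T.h (K.sup B) (tate p F (K.sup B)) := by
    calc (K.sup B).deg = (K.sup B).deg * 1 := (mul_one _).symm
      _ ≤ (K.sup B).deg * T.h K (tate p F K) := Nat.mul_le_mul_left _ h8
      _ = _ := h4
  have h10 : K.deg * T.h (K.sup B) (tate p F (K.sup B)) <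
      K.deg * (clRank p L + numAbove p L) := Nat.mul_lt_mul_of_pos_left h6 K.deg_pos
  rw [mul_comm K.deg (clRank p L + numAbove p L)] at h10
  omega

end Theory

end Pool.Mu54
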